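import Mathlib
import Pool.Agent.P8H6.Blk.Exact
import Pool.Agent.P8H6.Blk.Block

/-! Exact patterns of prime times in the orbits of `x ↦ 2 x - 1` (as the forms `2 ^ e n + 1`). -/

set_option autoImplicit false

namespace Pool.Agent.P8H6.Orb

open Finset
open Pool.Agent.TH779.Ord (fn)
open Pool.Agent.P8H6.Blk (few_nat pairs_of)

/-- exact patterns among prescribed times `h x`, `x < T K` -/
theorem exact_orb (T : ℕ) (lam θ : ℝ) (hTp : 1 ≤ T) (hlam : 0 < lam)
    (hθ0 : 0 ≤ θ) (hθ : θ < T / (16 * lam)) :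
    ∃ K : ℕ, 2 ≤ K ∧ ∀ h : ℕ → ℕ,
      (∀ x < T * K, ∀ y < T * K, h x = h y → x = y) →
      ∃ J : Finset ℕ, (∀ x ∈ J, x < T * K) ∧ θ <
        ∑ g ∈ range T, fn lam (J.filter (fun x => x / K = g)).card ∧
        {n : ℕ | (∀ x ∈ J, (2 ^ h x * n + 1).Prime) ∧
          ∀ y : ℕ, (∃ x < T * K, y ≤ h x) → (2 ^ y * n + 1).Prime → ∃ x ∈ J, y = h x}.Infinite := by
  classical
  obtain ⟨K, hK, hmain⟩ := few_nat T lam θ hTp hlam hθ0 hθ
  refine ⟨K, hK, ?_⟩
  intro h hinj
  set M := T * K with hM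
  set D := (range M).sup h with hD
  have hxD : ∀ x < M, h x ≤ D := fun x hx => le_sup (f := h) (mem_range.2 hx)
  -- forms for all the positions
  set ι := Fin (D + 1) with hι
  set S : Finset ι := univ.filter (fun j => ∃ x < M, h x = (j : ℕ)) with hS
  obtain ⟨W, ν, hW, hE, hSp⟩ := Pool.Agent.TH779.Shat.congruences (fun j : ι => 2 ^ (j : ℕ))
    (fun _ : ι => 1) (fun j => Nat.one_le_two_pow)
    (by
      intro i j hij h1
      rw [mul_one, mul_one] at h1
      exact hij (Fin.ext (Nat.pow_right_injective le_rfl h1))) S Sᶜ disjoint_compl_left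
  have hpos : ∀ x, x < M → h x < D + 1 := fun x hx => by
    have := hxD x hx
    omega
  have hfew := hmain (fun x => 2 ^ h x * W) (fun x => 2 ^ h x * ν + 1)
    (fun _ _ => Nat.mul_pos (by positivity) hW)
    (by
      intro x hx y hy h1 _
      apply hinj x hx y hy
      exact Nat.pow_right_injective le_rfl (Nat.eq_of_mul_eq_mul_right hW h1))
    (by
      intro p hp
      by_cases hpW : p ∣ W
      · refine ⟨0, fun x hx hd => ?_⟩
        rw [mul_zero, zero_add] at hd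
        exact hSp p hp hpW ⟨h x, hpos x hx⟩ (by
          rw [hS, mem_filter]
          exact ⟨mem_univ _, x, hx, rfl⟩) hd
      · have : Fact p.Prime := ⟨hp⟩
        have hWZ : (W : ZMod p) ≠ 0 := fun h => hpW ((ZMod.natCast_eq_zero_iff _ _).1 h)
        refine ⟨((-(ν : ZMod p)) / W).val, fun x hx hd => ?_⟩
        rw [← ZMod.natCast_eq_zero_iff] at hd
        push_cast at hd
        rw [ZMod.natCast_zmod_val] at hd
        have h1 : (2 : ZMod p) ^ h x * W * (-(ν : ZMod p) / W) + (2 ^ h x * ν + 1) = 1 := by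
          field_simp
          ring
        rw [h1] at hd
        exact one_ne_zero hd)
  -- the pattern at `t`
  set Jt : ℕ → Finset ℕ := fun t =>
    (range M).filter (fun x => (2 ^ h x * W * t + (2 ^ h x * ν + 1)).Prime) with hJt
  set Sset : Set ℕ := {t : ℕ | 2 ≤ t ∧ θ <
    ∑ g ∈ range T, fn lam ((Jt t).filter (fun x => x / K = g)).card} with hSset
  have hinf : Sset.Infinite := by
    rw [Set.infinite_iff_exists_gt]
    intro N0
    obtain ⟨t, ht1, ht2⟩ := hfew (N0 + 2)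
    refine ⟨t, ⟨by omega, ht2.trans_eq ?_⟩, by omega⟩
    apply sum_congr rfl
    intro g _
    congr 2
    ext x
    simp only [hJt, mem_filter, mem_range]
    tauto
  have hcover : Sset ⊆ ⋃ J : Set.Elem (((range M).powerset : Finset (Finset ℕ)) : Set (Finset ℕ)),
      {t ∈ Sset | Jt t = J.1} := by
    intro t ht
    rw [Set.mem_iUnion]
    refine ⟨⟨Jt t, ?_⟩, ht, rfl⟩
    rw [mem_coe, mem_powerset]
    exact filter_subset _ _
  have : ∃ J : Finset ℕ, {t ∈ Sset | Jt t = J}.Infinite := by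
    by_contra hcon
    push Not at hcon
    apply hinf
    apply Set.Finite.subset _ hcover
    exact Set.finite_iUnion (fun J => hcon J.1)
  obtain ⟨J, hJ⟩ := this
  obtain ⟨t₀, ht₀⟩ := hJ.nonempty
  have hJM : ∀ x ∈ J, x < M := by
    intro x hx
    rw [← ht₀.2, hJt] at hx
    exact mem_range.1 (mem_filter.1 hx).1
  refine ⟨J, hJM, ?_, ?_⟩
  · have := ht₀.1.2
    rw [ht₀.2] at this
    exact this
  · have hinj' : Set.InjOn (fun t : ℕ => W * t + ν) {t ∈ Sset | Jt t = J} := by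
      intro t _ t' _ e
      have e' : W * t = W * t' := by
        simp only at e
        omega
      exact Nat.eq_of_mul_eq_mul_left hW e'
    apply (hJ.image hinj').mono
    rintro _ ⟨t, ⟨ht1, ht2⟩, rfl⟩
    refine ⟨?_, ?_⟩
    · intro x hx
      rw [← ht2, hJt, mem_filter] at hx
      have h1 : 2 ^ h x * (W * t + ν) + 1 = 2 ^ h x * W * t + (2 ^ h x * ν + 1) := by ring
      simp only
      rw [h1]
      exact hx.2
    · rintro y ⟨x, hx, hy⟩ hp
      simp only at hp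
      have hyD : y < D + 1 := hy.trans_lt (hpos x hx)
      by_cases hyS : (⟨y, hyD⟩ : ι) ∈ S
      · rw [hS, mem_filter] at hyS
        obtain ⟨-, x', hx', he⟩ := hyS
        simp only at he
        refine ⟨x', ?_, he.symm⟩
        rw [← ht2, hJt, mem_filter, mem_range]
        refine ⟨hx', ?_⟩
        rw [he]
        have h1 : 2 ^ y * W * t + (2 ^ y * ν + 1) = 2 ^ y * (W * t + ν) + 1 := by ring
        rw [h1]
        exact hp
      · exfalso
        obtain ⟨p, hp1, hp2, hp3⟩ := hE ⟨y, hyD⟩ (mem_compl.2 hyS)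
        simp only at hp3
        have h1 : p ∣ 2 ^ y * (W * t + ν) + 1 := by
          have h2 : 2 ^ y * (W * t + ν) + 1 = W * (2 ^ y * t) + (2 ^ y * ν + 1) := by ring
          rw [h2]
          exact dvd_add (hp2.mul_right _) hp3
        have h2 : p = 2 ^ y * (W * t + ν) + 1 := (Nat.prime_dvd_prime_iff_eq hp1 hp).1 h1
        have h3 : p ≤ W := Nat.le_of_dvd hW hp2
        have h4 : 2 ≤ t := ht1.1
        have h5 : W ≤ 2 ^ y * (W * t + ν) := by
          calc W = 1 * (W * 1) := by ring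
            _ ≤ 2 ^ y * (W * t + ν) := by
                apply Nat.mul_le_mul Nat.one_le_two_pow
                have : W * 1 ≤ W * t := Nat.mul_le_mul_left _ (by omega)
                omega
        omega

/-- the block theorem for the times -/
theorem block_orb (k T : ℕ) (hk : 1 ≤ k) (hT : 8 * k ^ 2 < T) :
    ∃ K : ℕ, 2 ≤ K ∧ ∀ H : Fin T → Fin K → ℕ,
      Function.Injective (fun x : Fin T × Fin K => H x.1 x.2) →
      ∃ (I : Finset (Fin T)) (c : Fin T → Fin K), I.card = k + 1 ∧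
        {n : ℕ | (∀ g ∈ I, (2 ^ H g (c g) * n + 1).Prime) ∧
          ∀ y : ℕ, (∃ g ∈ I, H g (c g) ≤ y) → (∃ g ∈ I, y ≤ H g (c g)) → (2 ^ y * n + 1).Prime →
            ∃ g ∈ I, y = H g (c g)}.Infinite := by
  classical
  have hkR : (1 : ℝ) ≤ k := by exact_mod_cast hk
  have hTR : 8 * (k : ℝ) ^ 2 < T := by exact_mod_cast hT
  obtain ⟨K, hK, hmain⟩ := exact_orb T ((k : ℝ) / 2) k (by omega) (by positivity) (by positivity)
    (by
      rw [lt_div_iff₀ (by positivity)]
      nlinarith)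
  refine ⟨K, hK, ?_⟩
  intro H hH
  have hK0 : 0 < K := by omega
  have hT0 : 0 < T := by omega
  have hdiv : ∀ x, x < T * K → x / K < T := fun x hx => (Nat.div_lt_iff_lt_mul hK0).2 hx
  set h : ℕ → ℕ := fun x => if hx : x < T * K then H ⟨x / K, hdiv x hx⟩ ⟨x % K, Nat.mod_lt _ hK0⟩
    else 0 with hh
  have hhx : ∀ x (hx : x < T * K), h x = H ⟨x / K, hdiv x hx⟩ ⟨x % K, Nat.mod_lt _ hK0⟩ := by
    intro x hx
    rw [hh]
    simp only [hx, dif_pos]
  have hinj : ∀ x < T * K, ∀ y < T * K, h x = h y → x = y := by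
    intro x hx y hy he
    rw [hhx x hx, hhx y hy] at he
    have h1 := @hH (⟨x / K, hdiv x hx⟩, ⟨x % K, Nat.mod_lt _ hK0⟩)
      (⟨y / K, hdiv y hy⟩, ⟨y % K, Nat.mod_lt _ hK0⟩) he
    simp only [Prod.mk.injEq, Fin.mk.injEq] at h1
    rw [← Nat.div_add_mod x K, ← Nat.div_add_mod y K, h1.1, h1.2]
  obtain ⟨J, hJ, hfn, hinf⟩ := hmain h hinj
  have hinjJ : Set.InjOn h (J : Set ℕ) := fun x hx y hy he => hinj x (hJ x hx) y (hJ y hy) he
  set f : ℕ → ℕ := fun y => Function.invFunOn h (J : Set ℕ) y / K with hf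
  have hfx : ∀ x ∈ J, f (h x) = x / K := by
    intro x hx
    rw [hf]
    simp only
    rw [hinjJ.leftInvOn_invFunOn hx]
  have hpairs := pairs_of J hJ h hinjJ f hfx hfn
  obtain ⟨F, hFP, hFc, hFinj, hFcons⟩ := Pool.Agent.W978.HRC.win k (J.image h) f hk (by
    convert hpairs)
  -- the classes of the elements of `F`
  set cls : ℕ → Fin T := fun y => if hy : f y < T then ⟨f y, hy⟩ else ⟨0, hT0⟩ with hcls
  have hcx : ∀ x (hx : x ∈ J), cls (h x) = ⟨x / K, hdiv x (hJ x hx)⟩ := by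
    intro x hx
    have h1 : f (h x) < T := by rw [hfx x hx]; exact hdiv x (hJ x hx)
    rw [hcls]
    simp only [h1, dif_pos]
    apply Fin.ext
    simp only
    exact hfx x hx
  have hclsinj : Set.InjOn cls (F : Set ℕ) := by
    intro y hy y' hy' he
    apply hFinj hy hy'
    obtain ⟨x, hx, rfl⟩ := mem_image.1 (hFP hy)
    obtain ⟨x', hx', rfl⟩ := mem_image.1 (hFP hy')
    rw [hcx x hx, hcx x' hx', Fin.mk.injEq] at he
    rw [hfx x hx, hfx x' hx', he]
  -- the choice of the elements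
  have : Nonempty (Fin K) := ⟨⟨0, hK0⟩⟩
  have hsel : ∀ y ∈ F, ∃ i : Fin K, H (cls y) i = y := by
    intro y hy
    obtain ⟨x, hx, rfl⟩ := mem_image.1 (hFP hy)
    refine ⟨⟨x % K, Nat.mod_lt _ hK0⟩, ?_⟩
    rw [hcx x hx]
    exact (hhx x (hJ x hx)).symm
  choose! s hs using hsel
  set inv : Fin T → ℕ := fun g => Function.invFunOn cls (F : Set ℕ) g with hinv
  have hinvx : ∀ y ∈ F, inv (cls y) = y := fun y hy => hclsinj.leftInvOn_invFunOn hy
  refine ⟨F.image cls, fun g => s (inv g), ?_, ?_⟩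
  · rw [card_image_of_injOn hclsinj, hFc]
  have hval : ∀ y ∈ F, H (cls y) (s (inv (cls y))) = y := by
    intro y hy
    rw [hinvx y hy]
    exact hs y hy
  apply hinf.mono
  rintro n ⟨h2, h3⟩
  refine ⟨?_, ?_⟩
  · intro g hg
    obtain ⟨y, hy, rfl⟩ := mem_image.1 hg
    rw [hval y hy]
    obtain ⟨x, hx, rfl⟩ := mem_image.1 (hFP hy)
    exact h2 x hx
  · rintro y ⟨g, hg, hgy⟩ ⟨g', hg', hgy'⟩ hp
    obtain ⟨z, hz, rfl⟩ := mem_image.1 hg
    obtain ⟨z', hz', rfl⟩ := mem_image.1 hg'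
    rw [hval z hz] at hgy
    rw [hval z' hz'] at hgy'
    obtain ⟨x', hx', hxz'⟩ := mem_image.1 (hFP hz')
    obtain ⟨x, hx, rfl⟩ := h3 y ⟨x', hJ x' hx', by rw [hxz']; exact hgy'⟩ hp
    have h4 := hFcons (h x) (mem_image_of_mem h hx) ⟨z, hz, hgy⟩ ⟨z', hz', hgy'⟩
    exact ⟨cls (h x), mem_image_of_mem cls h4, (hval _ h4).symm⟩

/-- the iterate `x ↦ 2 x - 1` at `n + 1` -/
theorem iter_eq (n e : ℕ) : (fun x : ℕ => 2 * x - 1)^[e] (n + 1) = 2 ^ e * n + 1 := by
  induction e with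
  | zero => simp
  | succ e ih =>
    rw [Function.iterate_succ_apply', ih, pow_succ]
    have : 2 * (2 ^ e * n + 1) = 2 ^ e * 2 * n + 1 + 1 := by ring
    rw [this, Nat.add_sub_cancel]

/-- there are infinitely many primes `p` such that, for the times `e` up to the length of `F`, the iterate
of `x ↦ 2 x - 1` at `p` is prime exactly if `e` belongs to `F` translated so as to begin with `0` -/
def Times (F : Finset ℕ) : Prop :=
  ∃ m : ℕ, m ∈ F ∧ (∀ f ∈ F, m ≤ f) ∧
    {p : ℕ | p.Prime ∧ ∀ e : ℕ, (∃ f ∈ F, m + e ≤ f) →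
      (((fun x : ℕ => 2 * x - 1)^[e] p).Prime ↔ m + e ∈ F)}.Infinite

theorem times_of (F : Finset ℕ) (hF : F.Nonempty) (h : {n : ℕ | (∀ f ∈ F, (2 ^ f * n + 1).Prime) ∧
      ∀ y : ℕ, (∃ f ∈ F, f ≤ y) → (∃ f ∈ F, y ≤ f) → (2 ^ y * n + 1).Prime → y ∈ F}.Infinite) :
    Times F := by
  refine ⟨F.min' hF, min'_mem F hF, fun f hf => min'_le F f hf, ?_⟩
  have hinj : Set.InjOn (fun n : ℕ => 2 ^ (F.min' hF) * n + 1)
      {n : ℕ | (∀ f ∈ F, (2 ^ f * n + 1).Prime) ∧
      ∀ y : ℕ, (∃ f ∈ F, f ≤ y) → (∃ f ∈ F, y ≤ f) → (2 ^ y * n + 1).Prime → y ∈ F} := by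
    intro n _ n' _ e
    simp only at e
    have e' : 2 ^ (F.min' hF) * n = 2 ^ (F.min' hF) * n' := by omega
    exact Nat.eq_of_mul_eq_mul_left (by positivity) e'
  apply (h.image hinj).mono
  rintro _ ⟨n, ⟨h1, h2⟩, rfl⟩
  refine ⟨h1 _ (min'_mem F hF), ?_⟩
  rintro e ⟨f, hf, hef⟩
  simp only
  rw [iter_eq]
  have h3 : 2 ^ e * (2 ^ (F.min' hF) * n) + 1 = 2 ^ (F.min' hF + e) * n + 1 := by
    rw [pow_add]; ring
  rw [h3]
  constructor
  · intro hp
    exact h2 _ ⟨F.min' hF, min'_mem F hF, Nat.le_add_right _ _⟩ ⟨f, hf, hef⟩ hp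
  · intro hm
    exact h1 _ hm

/-- the exceptional tuples of times -/
def IsExc (k : ℕ) {T : ℕ} (v : Fin T → ℕ) : Prop :=
  Function.Injective v ∧
    ¬ ∃ F : Finset ℕ, (∀ f ∈ F, f ∈ Set.range v) ∧ F.card = k + 1 ∧ Times F

open Classical in
/-- the exceptional tuples -/
noncomputable def Exc (k : ℕ) {T : ℕ} (V : Fin T → Finset ℕ) : Finset (Fin T → ℕ) :=
  (Fintype.piFinset V).filter (fun v => IsExc k v)

/-- from a box of exceptional tuples to a contradiction -/
theorem no_box (k T : ℕ) (hk : 1 ≤ k) (hT : 8 * k ^ 2 < T) : ∃ K : ℕ,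
    ∀ V : Fin T → Finset ℕ, ¬ ∃ A : Fin T → Fin K → ℕ, (∀ i, Function.Injective (A i)) ∧
      ∀ c : Fin T → Fin K, (fun i => A i (c i)) ∈ Exc k V := by
  classical
  obtain ⟨K, hK, hblk⟩ := block_orb k T hk hT
  refine ⟨K, ?_⟩
  rintro V ⟨A, hA1, hA2⟩
  have hK0 : 0 < K := by omega
  have hprop : ∀ c : Fin T → Fin K, IsExc k (fun i => A i (c i)) := by
    intro c
    have h1 := hA2 c
    unfold Exc at h1
    exact (mem_filter.1 h1).2
  have hHinj : Function.Injective (fun x : Fin T × Fin K => A x.1 x.2) := by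
    rintro ⟨i, j⟩ ⟨i', j'⟩ hh
    simp only at hh
    by_cases hii : i = i'
    · subst hii
      have h1 := hA1 i hh
      rw [h1]
    · exfalso
      have h1 := (hprop (fun x => if x = i then j else j')).1
      have h2 := @h1 i i' (by
        simp only [if_true, Ne.symm hii, if_false]
        exact hh)
      exact hii h2
  obtain ⟨I, c, hI, hcons⟩ := hblk A hHinj
  apply (hprop c).2
  refine ⟨I.image (fun g => A g (c g)), fun f hf => ?_, ?_, ?_⟩
  · obtain ⟨g, -, rfl⟩ := mem_image.1 hf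
    exact ⟨g, rfl⟩
  · rw [card_image_of_injective _ (hprop c).1, hI]
  · have hIne : I.Nonempty := card_pos.1 (by omega)
    refine times_of _ (hIne.image _) (hcons.mono ?_)
    rintro n ⟨h1, h2⟩
    refine ⟨?_, ?_⟩
    · intro f hf
      obtain ⟨g, hg, rfl⟩ := mem_image.1 hf
      exact h1 g hg
    · rintro y ⟨f, hf, hfy⟩ ⟨f', hf', hfy'⟩ hp
      obtain ⟨g, hg, rfl⟩ := mem_image.1 hf
      obtain ⟨g', hg', rfl⟩ := mem_image.1 hf'
      obtain ⟨g'', hg'', he⟩ := h2 y ⟨g, hg, hfy⟩ ⟨g', hg', hfy'⟩ hp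
      rw [he]
      exact mem_image_of_mem (fun g => A g (c g)) hg''

end Pool.Agent.P8H6.Orb
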